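import Mathlib
import Pool.Agent.R351.SlpRate

/-!
# Computations with few additions at the terms of an infinite sequence
-/

set_option autoImplicit false

namespace Pool.Agent.L5helper73.LA

open Finset MvPolynomial Pool.Agent.R351

section Gen

variable {κ C : Type} [Field κ] [Field C] [Algebra κ C]

/-- The number `y` is good for all computations with constants from `T`. -/
def GoodS (κ : Type) {C : Type} [Field κ] [Field C] [Algebra κ C] (T : Set C) (L : ℕ) (y : C) : Prop :=
  ∀ (g : ℕ) (t : Fin g → C), (∀ o, t o ∈ T) → Good1 κ t L y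

/-- the extension of a computation by zeros -/
theorem Cmp.extend {R ι : Type} [CommRing R] [Algebra κ R] [Fintype ι] {β : ι → R} {L L' : ℕ} {G : ℕ → R}
    (h : Cmp κ β L G) (_hL : L ≤ L') :
    ∃ G' : ℕ → R, Cmp κ β L' G' ∧ ∀ l < L, G' l = G l := by
  classical
  obtain ⟨c, e, u, h⟩ := h
  refine ⟨fun l => if l < L then G l else 0, ⟨fun l b => if l < L then c l b else 0, e, u, fun l hl => ?_⟩,
    fun l hl => if_pos hl⟩
  by_cases h1 : l < L
  · simp only [if_pos h1]
    rw [h l h1]
    refine Finset.sum_congr rfl fun b _ => ?_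
    congr 2
    refine Finset.prod_congr rfl fun l' hl' => ?_
    rw [if_pos (lt_trans (Finset.mem_range.1 hl') h1)]
  · simp only [if_neg h1, zero_smul, Finset.sum_const_zero]

/-- Fewer constants and fewer additions. -/
theorem good1_of_sub {g g' : ℕ} {t : Fin g → C} {t' : Fin g' → C} {L L' : ℕ} (hL : L' ≤ L)
    (he : ∀ o, ∃ o', t' o = t o') {y : C} (h : Good1 κ t L y) : Good1 κ t' L' y := by
  classical
  choose e he using he
  intro G hG l hl h0
  obtain ⟨G', hG', hGG⟩ := Cmp.extend hG hL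
  have h1 : Cmp κ (bt1 t) L G' := by
    refine hG'.subst (bt1 t) (fun _ => 1) (fun j j' => if j' = j.map e then 1 else 0) fun j => ?_
    simp only [one_smul, pow_ite, pow_one, pow_zero, Finset.prod_ite_eq', Finset.mem_univ, if_true]
    rcases j with _ | o
    · rfl
    · show Polynomial.C (t' o) = Polynomial.C (t (e o))
      rw [he]
  have h2 := h G' h1 l (lt_of_lt_of_le hl hL) (by rw [hGG l hl]; exact h0)
  rwa [hGG l hl] at h2

theorem goodS_of {g : ℕ} {t : Fin g → C} {L L' : ℕ} (hL : L' ≤ L) {y : C} (h : Good1 κ t L y) :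
    GoodS κ (Set.range t) L' y := by
  intro g' t' ht'
  exact good1_of_sub hL (fun o => by obtain ⟨o', ho'⟩ := ht' o; exact ⟨o', ho'.symm⟩) h

theorem GoodS.mono {T T' : Set C} {L L' : ℕ} {y : C} (h : GoodS κ T L y) (hT : T' ⊆ T) (hL : L' ≤ L) :
    GoodS κ T' L' y := by
  intro g t ht
  exact good1_of_sub hL (fun o => ⟨o, rfl⟩) (h g t fun o => hT (ht o))

/-- **The chain.** -/
theorem chain [Infinite κ] (y : ℕ → C) (T : ℕ → Set C)
    (hy : ∀ i j, i < j → y i ∈ T j) (Λ : ℕ → ℕ) {J : Set ℕ} (hJ : ∀ j ∈ J, GoodS κ (T j) (Λ j) (y j)) (L : ℕ) :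
    ∀ (m : ℕ) (e : Fin m → ℕ), StrictMono e → (∀ i, e i ∈ J) → (∀ i, L ≤ Λ (e i)) →
      ∀ (g : ℕ) (t : Fin g → C), (∀ i o, t o ∈ T (e i)) → GoodT κ t L fun i => y (e i) := by
  intro m
  induction m with
  | zero => intro e _ _ _ g t _; exact goodT_zero _ _
  | succ m ih =>
    intro e he heJ heL g t ht
    have h1 : (fun i => y (e i)) = (Fin.cons (y (e 0)) (fun i : Fin m => y (e i.succ)) : Fin (m + 1) → C) := by
      funext i
      refine Fin.cases ?_ (fun i => ?_) i
      · simp
      · simp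
    rw [h1]
    refine goodT_cons ?_ ?_
    · exact good1_of_sub (heL 0) (fun o => ⟨o, rfl⟩) (hJ (e 0) (heJ 0) g t (ht 0))
    · refine ih (fun i => e i.succ) (fun a b hab => he (Fin.succ_lt_succ_iff.2 hab)) (fun i => heJ _)
        (fun i => heL _) (g + 1) _ fun i o => ?_
      refine Fin.cases ?_ (fun o => ?_) o
      · rw [Fin.cons_zero]
        exact hy _ _ (he (Fin.succ_pos i))
      · rw [Fin.cons_succ]
        exact ht _ _

/-- The polynomials `G 0, …, G (L - 1)` in any set of variables are computed with one addition each, with constants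
`t o`. -/
def Comp (κ : Type) {C : Type} [Field κ] [Field C] [Algebra κ C] {ι σ : Type} (t : ι → C) (L : ℕ)
    (G : ℕ → MvPolynomial σ C) : Prop :=
  ∃ (c : ℕ → Bool → κ) (u : ℕ → Bool → ι →₀ ℕ) (a : ℕ → Bool → σ →₀ ℕ) (h : ℕ → Bool → ℕ → ℕ),
    ∀ l < L, G l = ∑ b : Bool, MvPolynomial.monomial (a l b) (algebraMap κ C (c l b) * (u l b).prod fun o e => t o ^ e) *
      ∏ l' ∈ Finset.range l, G l' ^ h l b l'

/-- the reduction to finitely many variables, in their order -/
theorem Comp.fin {ι : Type} [Fintype ι] {t : ι → C} {L : ℕ} {J : Set ℕ} {G : ℕ → MvPolynomial J C}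
    (h : Comp κ t L G) : ∃ (m : ℕ) (e : Fin m → J), StrictMono (fun i => (e i : ℕ)) ∧
      ∃ (g : ℕ) (ε : Fin g ≃ ι) (G' : ℕ → MvPolynomial (Fin m) C), Cmp κ (btm m (t ∘ ε)) L G' ∧
        ∀ l < L, G l = MvPolynomial.rename e (G' l) := by
  classical
  obtain ⟨c, u, a, h, hG⟩ := h
  -- the variables
  let F : Finset J := (range L).biUnion fun l => univ.biUnion fun b : Bool => (a l b).support
  have hF : ∀ l < L, ∀ b, (a l b).support ⊆ F := fun l hl b s hs =>
    Finset.mem_biUnion.2 ⟨l, Finset.mem_range.2 hl, Finset.mem_biUnion.2 ⟨b, Finset.mem_univ _, hs⟩⟩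
  let e : Fin F.card ↪o J := F.orderEmbOfFin rfl
  have heF : ∀ s ∈ F, ∃ i, e i = s := fun s hs => by
    have h1 : s ∈ Set.range (F.orderEmbOfFin rfl) := by rw [Finset.range_orderEmbOfFin]; exact hs
    exact h1
  have hea : ∀ l < L, ∀ b, ∃ a' : Fin F.card →₀ ℕ, a l b = a'.mapDomain e := by
    intro l hl b
    refine ⟨(a l b).comapDomain e e.injective.injOn, ?_⟩
    rw [Finsupp.mapDomain_comapDomain e e.injective]
    intro s hs
    obtain ⟨i, hi⟩ := heF s (hF l hl b hs)
    exact ⟨i, hi⟩
  choose! a' ha' using hea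
  let ε : Fin (Fintype.card ι) ≃ ι := (Fintype.equivFin ι).symm
  let k : MvPolynomial J C →ₐ[C] MvPolynomial (Fin F.card) C := MvPolynomial.killCompl (f := e) e.injective
  have hk : ∀ p, k (MvPolynomial.rename e p) = p := fun p => by
    have := MvPolynomial.killCompl_comp_rename (R := C) (f := e) e.injective
    exact DFunLike.congr_fun this p
  have hkG : ∀ l < L, MvPolynomial.rename e (k (G l)) = G l := by
    intro l
    induction l using Nat.strong_induction_on with
    | _ l ih =>
      intro hl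
      rw [hG l hl, map_sum, map_sum]
      refine Finset.sum_congr rfl fun b _ => ?_
      rw [map_mul, map_mul, map_prod, map_prod]
      congr 1
      · rw [ha' l hl b, ← MvPolynomial.rename_monomial, hk]
      · refine Finset.prod_congr rfl fun l' hl' => ?_
        have h1 := Finset.mem_range.1 hl'
        rw [map_pow, map_pow, ih l' h1 (h1.trans hl)]
  refine ⟨F.card, e, fun i j hij => e.strictMono hij, Fintype.card ι, ε, fun l => k (G l),
    ⟨c, fun l b => Sum.elim (fun o => u l b (ε o)) (a' l b), h, fun l hl => ?_⟩, fun l hl => (hkG l hl).symm⟩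
  show k (G l) = _
  rw [hG l hl, map_sum]
  refine Finset.sum_congr rfl fun b _ => ?_
  rw [map_mul, map_prod]
  simp only [map_pow]
  rw [ha' l hl b, ← MvPolynomial.rename_monomial, hk, Fintype.prod_sum_type]
  rw [Algebra.smul_def, IsScalarTower.algebraMap_apply κ C (MvPolynomial (Fin F.card) C), MvPolynomial.algebraMap_eq,
    ← mul_assoc]
  congr 1
  simp only [btm, Sum.elim_inl, Sum.elim_inr, Function.comp_apply]
  rw [MvPolynomial.monomial_eq, map_mul, mul_assoc]
  congr 1
  congr 1
  · rw [Finsupp.prod_fintype _ _ (fun i => by simp), map_prod]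
    simp only [map_pow]
    exact (Equiv.prod_comp ε fun o => MvPolynomial.C (t o) ^ (u l b) o).symm
  · rw [Finsupp.prod_fintype _ _ (fun i => by simp)]

/-- **Freeness.** -/
theorem free [Infinite κ] (y : ℕ → C) (T : ℕ → Set C) (hT : ∀ i j, i ≤ j → T i ⊆ T j)
    (hy : ∀ i j, i < j → y i ∈ T j) (Λ : ℕ → ℕ) {J : Set ℕ} (hJ : ∀ j ∈ J, GoodS κ (T j) (Λ j) (y j))
    {L k : ℕ} (hk : ∀ j ∈ J, k ≤ j) (hL : ∀ j ∈ J, L ≤ Λ j) {ι : Type} [Fintype ι] (t : ι → C) (ht : ∀ o, t o ∈ T k)
    (G : ℕ → MvPolynomial J C) (hG : Comp κ t L G) (l : ℕ) (hl : l < L) (h0 : G l ≠ 0) :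
    MvPolynomial.eval (fun j : J => y j) (G l) ≠ 0 := by
  obtain ⟨m, e, he, g, ε, G', hG', hGG⟩ := hG.fin
  intro h1
  apply h0
  rw [hGG l hl] at h1 ⊢
  rw [MvPolynomial.eval_rename] at h1
  rw [chain y T hy Λ hJ L m (fun i => (e i : ℕ)) he (fun i => (e i).2) (fun i => hL _ (e i).2) g (t ∘ ε)
    (fun i o => hT k _ (hk _ (e i).2) (ht _)) G' hG' l hl h1, map_zero]

/-- one variable and tuples of length one -/
theorem good1_of_goodT {g : ℕ} {t : Fin g → C} {L : ℕ} {y : C} (h : GoodT κ t L fun _ : Fin 1 => y) :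
    Good1 κ t L y := by
  classical
  intro G hG l hl h0
  let f : Polynomial C →ₐ[C] MvPolynomial (Fin 1) C := Polynomial.aeval (MvPolynomial.X 0)
  let f' : MvPolynomial (Fin 1) C →ₐ[C] Polynomial C := MvPolynomial.aeval fun _ => Polynomial.X
  have hf : ∀ p, f' (f p) = p := by
    intro p
    have : f'.comp f = AlgHom.id C _ := by
      apply Polynomial.algHom_ext
      simp [f, f']
    exact DFunLike.congr_fun this p
  have h1 : Cmp κ (btm 1 t) L (fun l => f (G l)) := by
    refine (hG.map (f.restrictScalars κ)).subst _ (fun _ => 1)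
      (fun j j' => if j' = (j.elim (Sum.inr 0) Sum.inl : Fin g ⊕ Fin 1) then 1 else 0) fun j => ?_
    simp only [one_smul, pow_ite, pow_one, pow_zero, Finset.prod_ite_eq', Finset.mem_univ, if_true]
    rcases j with _ | o
    · show f Polynomial.X = MvPolynomial.X 0
      simp [f]
    · show f (Polynomial.C (t o)) = MvPolynomial.C (t o)
      simp [f]
  have h2 := h _ h1 l hl (by
    have h3 : ((MvPolynomial.aeval (fun _ : Fin 1 => y) : MvPolynomial (Fin 1) C →ₐ[C] C)).comp f =
        (Polynomial.aeval y : Polynomial C →ₐ[C] C) := by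
      apply Polynomial.algHom_ext
      simp [f]
    have h4 := DFunLike.congr_fun h3 (G l)
    rw [← h0]
    exact h4)
  have h5 := congrArg f' h2
  simp only [hf, map_zero] at h5
  exact h5

/-- Shifts in one variable. -/
theorem good1_shift [Infinite κ] {g : ℕ} {t : Fin g → C} {L : ℕ} {y : C} (T : C)
    (h : Good1 κ (Fin.cons T t : Fin (g + 1) → C) (1 + L) y) (b : κ) :
    Good1 κ t L (y + algebraMap κ C b * T) := by
  apply good1_of_goodT
  have h1 : GoodT κ (Fin.cons T t : Fin (g + 1) → C) (1 + L) (Fin.cons y (fun i : Fin 0 => i.elim0) : Fin 1 → C) :=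
    goodT_cons h (goodT_zero _ _)
  have h2 : (Fin.cons y (fun i : Fin 0 => i.elim0) : Fin 1 → C) = fun _ => y := by
    funext i
    have hi : i = (0 : Fin 1) := Subsingleton.elim (α := Fin 1) i 0
    rw [hi]
    rfl
  rw [h2] at h1
  exact h1.shift T (fun _ => b)

end Gen

/-- A sequence chosen step by step. -/
theorem exists_seq {α : Type} [Inhabited α] (P : ℕ → (ℕ → α) → α → Prop)
    (hP : ∀ j y y' a, (∀ i < j, y i = y' i) → P j y a → P j y' a) (h : ∀ j y, ∃ a, P j y a) :
    ∃ y : ℕ → α, ∀ j, P j y (y j) := by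
  classical
  choose a ha using h
  let F : (j : ℕ) → ((i : ℕ) → i < j → α) → α := fun j prev =>
    a j fun i => if hi : i < j then prev i hi else default
  let y : ℕ → α := fun j => Nat.strongRec (motive := fun _ => α) F j
  have hy : ∀ j, y j = a j fun i => if i < j then y i else default := by
    intro j
    show Nat.strongRec (motive := fun _ => α) F j = _
    rw [Nat.strongRec_eq]
    show a j _ = a j _
    congr 1
  refine ⟨y, fun j => ?_⟩
  rw [hy j]
  refine hP j _ y _ (fun i hi => if_pos hi) (ha j _)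

end Pool.Agent.L5helper73.LA
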