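import Mathlib
import Pool.Agent.L5helper73.LA.A

/-!
# The exceptional sets
-/

set_option autoImplicit false

namespace Pool.Agent.L5helper73.LA

open Finset MvPolynomial Pool.Agent.R351

/-- the largest of the values `ψ 0, …, ψ j` -/
def Lam (ψ : ℕ → ℕ) (j : ℕ) : ℕ := (range (j + 1)).sup ψ

theorem le_Lam (ψ : ℕ → ℕ) {i j : ℕ} (h : i ≤ j) : ψ i ≤ Lam ψ j :=
  Finset.le_sup (f := ψ) (Finset.mem_range.2 (by omega))

theorem Lam_mono (ψ : ℕ → ℕ) {i j : ℕ} (h : i ≤ j) : Lam ψ i ≤ Lam ψ j :=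
  Finset.sup_mono (Finset.range_mono (by omega))

section Gen

variable {κ C : Type} [Field κ] [Field C] [Algebra κ C]

/-- the constants at the step `j` -/
def Tc (c : ℕ → C) (ψ : ℕ → ℕ) (j : ℕ) (y : ℕ → C) : Fin (Lam ψ j + j) → C :=
  Fin.append (fun i : Fin (Lam ψ j) => c i) (fun i : Fin j => y i)

/-- the exceptional sets -/
def Bad (κ : Type) {C : Type} [Field κ] [Field C] [Algebra κ C] (c : ℕ → C) (τ : C) (ψ : ℕ → ℕ) (j : ℕ)
    (y : ℕ → C) : Set C :=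
  {x | ∃ b : ℤ, ¬ GoodS κ (Set.range (Tc c ψ j y)) (Lam ψ j) (x + b * τ)}

theorem Tc_congr (c : ℕ → C) (ψ : ℕ → ℕ) (j : ℕ) {y y' : ℕ → C} (h : ∀ i < j, y i = y' i) :
    Tc c ψ j y = Tc c ψ j y' := by
  unfold Tc
  congr 1
  funext i
  exact h i i.2

theorem bad_congr (c : ℕ → C) (τ : C) (ψ : ℕ → ℕ) (j : ℕ) {y y' : ℕ → C} (h : ∀ i < j, y i = y' i) :
    Bad κ c τ ψ j y = Bad κ c τ ψ j y' := by
  unfold Bad
  rw [Tc_congr c ψ j h]

theorem bad_shift (c : ℕ → C) (τ : C) (ψ : ℕ → ℕ) (j : ℕ) (y : ℕ → C) {x : C} (b : ℤ)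
    (h : x + b * τ ∈ Bad κ c τ ψ j y) : x ∈ Bad κ c τ ψ j y := by
  obtain ⟨b', hb'⟩ := h
  refine ⟨b + b', ?_⟩
  rwa [Int.cast_add, add_mul, ← add_assoc]

theorem notMem_bad [Infinite κ] (c : ℕ → C) (τ : C) (ψ : ℕ → ℕ) (j : ℕ) (y : ℕ → C) {x : C}
    (h : Good1 κ (Fin.cons τ (Tc c ψ j y) : Fin (Lam ψ j + j + 1) → C) (1 + Lam ψ j) x) :
    x ∉ Bad κ c τ ψ j y := by
  rintro ⟨b, hb⟩
  apply hb
  have h1 := good1_shift τ h (b : κ)
  rw [map_intCast] at h1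
  exact goodS_of le_rfl h1

/-- the known numbers -/
def known (c y : ℕ → C) (g k : ℕ) : Fin g ⊕ Fin k → C := Sum.elim (fun i => c i) (fun i => y i)

theorem free_of_notMem [Infinite κ] (c : ℕ → C) (τ : C) (ψ : ℕ → ℕ) (y : ℕ → C) (J : Set ℕ)
    (hJ : ∀ j ∈ J, y j ∉ Bad κ c τ ψ j y) (k : ℕ) (hk : ∀ j ∈ J, k ≤ j)
    (G : ℕ → MvPolynomial J C) (hG : Comp κ (known c y (ψ k) k) (ψ k) G) (l : ℕ) (hl : l < ψ k) (h0 : G l ≠ 0) :
    MvPolynomial.eval (fun j : J => y j) (G l) ≠ 0 := by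
  refine free y (fun j => Set.range (Tc c ψ j y)) ?_ ?_ (Lam ψ) (J := J) ?_ hk (fun j hj => le_Lam ψ (hk j hj))
    (known c y (ψ k) k) ?_ G hG l hl h0
  · rintro i j hij _ ⟨o, rfl⟩
    refine Fin.addCases (fun o => ?_) (fun o => ?_) o
    · refine ⟨Fin.castAdd j ⟨o, lt_of_lt_of_le o.2 (Lam_mono ψ hij)⟩, ?_⟩
      unfold Tc
      rw [Fin.append_left, Fin.append_left]
    · refine ⟨Fin.natAdd (Lam ψ j) ⟨o, lt_of_lt_of_le o.2 hij⟩, ?_⟩
      unfold Tc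
      rw [Fin.append_right, Fin.append_right]
  · intro i j hij
    refine ⟨Fin.natAdd (Lam ψ j) ⟨i, hij⟩, ?_⟩
    unfold Tc
    rw [Fin.append_right]
  · intro j hj
    by_contra hcon
    exact hJ j hj ⟨0, by rwa [Int.cast_zero, zero_mul, add_zero]⟩
  · rintro (o | o)
    · refine ⟨Fin.castAdd k ⟨o, lt_of_lt_of_le o.2 (le_Lam ψ le_rfl)⟩, ?_⟩
      unfold Tc
      rw [Fin.append_left]
      rfl
    · refine ⟨Fin.natAdd (Lam ψ k) ⟨o, o.2⟩, ?_⟩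
      unfold Tc
      rw [Fin.append_right]
      rfl

end Gen

/-- **The exceptional sets contain no cubes**, with a dimension that depends on `ψ` alone. -/
theorem no_cubes (ψ : ℕ → ℕ) : ∃ R : ℕ → ℕ, ∀ (κ C : Type) [Field κ] [IsAlgClosed κ] [CharZero κ]
    [Field C] [CharZero C] [Algebra κ C], InfTrd κ C → ∀ (c : ℕ → C) (τ : C) (j : ℕ) (y : ℕ → C) (x : C)
    (r : ℕ), R j ≤ r → ∀ (w : Fin r → C), LinearIndependent κ w →
      ∃ S : Finset (Fin r), x + ∑ i ∈ S, w i ∉ Bad κ c τ ψ j y := by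
  classical
  choose R hR using fun j : ℕ => cube_good (Lam ψ j + j + 1) (1 + Lam ψ j)
  refine ⟨R, fun κ C _ _ _ _ _ _ hinf c τ j y x r hr w hw => ?_⟩
  obtain ⟨S, hS⟩ := hR j κ C hinf (Fin.cons τ (Tc c ψ j y)) x (fun i => w (Fin.castLE hr i))
    (hw.comp _ (Fin.castLE_injective hr))
  refine ⟨S.map (Fin.castLEEmb hr), ?_⟩
  rw [Finset.sum_map]
  haveI : Infinite κ := IsAlgClosed.instInfinite
  exact notMem_bad c τ ψ j y hS

/-- the block number `j` -/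
def Blk (r : ℕ → ℕ) (j : ℕ) : Set ℕ := {i | ∑ i' ∈ range j, r i' ≤ i ∧ i < ∑ i' ∈ range (j + 1), r i'}

/-- **Every sequence has free sums.** -/
theorem exists_sums (ψ : ℕ → ℕ) (R : ℕ → ℕ) {κ C : Type} [Field κ] [Field C] [Algebra κ C] (c : ℕ → C) (τ : C)
    (hR : ∀ (j : ℕ) (y : ℕ → C) (x : C) (w : Fin (R j) → C), LinearIndependent κ w →
      ∃ S : Finset (Fin (R j)), x + ∑ i ∈ S, w i ∉ Bad κ c τ ψ j y) (l : ℕ → C) (hl : LinearIndependent κ l) :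
    ∃ S : ℕ → Finset ℕ, (∀ j, ∀ i ∈ S j, i ∈ Blk R j) ∧ ∀ j, ∑ i ∈ S j, l i ∉ Bad κ c τ ψ j fun j => ∑ i ∈ S j, l i := by
  classical
  obtain ⟨S, hS⟩ := exists_seq (α := Finset ℕ)
    (fun j S s => (∀ i ∈ s, i ∈ Blk R j) ∧ ∑ i ∈ s, l i ∉ Bad κ c τ ψ j fun j => ∑ i ∈ S j, l i)
    (fun j y y' a hyy h => ⟨h.1, by
      rw [← bad_congr c τ ψ j (y := fun j => ∑ i ∈ y j, l i) (y' := fun j => ∑ i ∈ y' j, l i)
        (fun i hi => by simp only [hyy i hi])]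
      exact h.2⟩)
    (fun j y => by
      let e : Fin (R j) ↪ ℕ := ⟨fun i => ∑ i' ∈ range j, R i' + i, fun a b hab => by
        simp only at hab
        exact Fin.ext (by omega)⟩
      obtain ⟨s, hs⟩ := hR j (fun j => ∑ i ∈ y j, l i) 0 (fun i => l (e i)) (hl.comp _ e.injective)
      refine ⟨s.map e, ?_, ?_⟩
      · intro i hi
        obtain ⟨i', -, rfl⟩ := Finset.mem_map.1 hi
        refine ⟨Nat.le_add_right _ _, ?_⟩
        rw [Finset.sum_range_succ]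
        exact Nat.add_lt_add_left i'.2 _
      · rw [Finset.sum_map]
        rwa [zero_add] at hs)
  exact ⟨S, fun j => (hS j).1, fun j => (hS j).2⟩

end Pool.Agent.L5helper73.LA
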