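import Mathlib
import Pool.Agent.L5helper73.LA.B

/-!
# Uncountable fields, and abstract logarithms
-/

set_option autoImplicit false

namespace Pool.Agent.L5helper73.LA

open Finset MvPolynomial Pool.Agent.R351
open Pool.Agent.W245.PB (LogLike)
open Pool.Agent.TH681.QC (er er_pos er_half er_nonneg cubes_er HasCube)

/-- An uncountable field has infinite transcendence degree over a countable one. -/
theorem infTrd_of {κ C : Type} [Field κ] [Field C] [Algebra κ C] (hκ : Cardinal.mk κ ≤ Cardinal.aleph0)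
    (hC : ¬ (Set.univ : Set C).Countable) : InfTrd κ C := by
  intro s hs halg
  apply hC
  have h4 : Countable (Algebra.adjoin κ s) := by
    have h5 : Countable s := hs.countable.to_subtype
    have h6 : Cardinal.mk (Algebra.adjoin κ s) ≤
        max (max (Cardinal.mk κ) (Cardinal.mk s)) Cardinal.aleph0 := by
      have h7 : Function.Surjective (MvPolynomial.aeval (R := κ) (fun x : s => (x : C))).rangeRestrict :=
        AlgHom.rangeRestrict_surjective _
      have h8 := Cardinal.mk_le_of_surjective h7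
      have h9 : Algebra.adjoin κ s = (MvPolynomial.aeval (R := κ) (fun x : s => (x : C))).range := by
        rw [← Algebra.adjoin_range_eq_range_aeval, Subtype.range_coe]
      rw [h9]
      exact h8.trans MvPolynomial.cardinalMk_le_max
    rw [← Cardinal.mk_le_aleph0_iff]
    refine h6.trans (max_le (max_le hκ ?_) le_rfl)
    exact Cardinal.mk_le_aleph0
  have h10 : Cardinal.mk C ≤ max (Cardinal.mk (Algebra.adjoin κ s)) Cardinal.aleph0 :=
    Algebra.IsAlgebraic.cardinalMk_le_max (Algebra.adjoin κ s) C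
  rw [Set.countable_univ_iff, ← Cardinal.mk_le_aleph0_iff]
  refine h10.trans (max_le ?_ le_rfl)
  exact Cardinal.mk_le_aleph0

/-- **The one-variable theorem with its rate, for abstract logarithms.** -/
theorem rate_gen (g L : ℕ) : ∃ c : ℕ, ∀ (κ C : Type) [Field κ] [IsAlgClosed κ] [CharZero κ]
    [Field C] [CharZero C] [Algebra κ C], InfTrd κ C → ∀ lg : ℕ → C, LogLike κ lg →
    ∀ x ≥ 16, ∀ (t : Fin g → C) (A : Finset ℕ), A ⊆ Ioc 0 x →
    (∀ a ∈ A, ¬ Good1 κ t L (lg a)) → (A.card : ℝ) ≤ er c x * x := by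
  classical
  obtain ⟨r, hr⟩ := cube_good g L
  obtain ⟨c, hc⟩ := cubes_er r 0
  refine ⟨c, fun κ C _ _ _ _ _ _ hinf lg hlg x hx t A hA hbad => ?_⟩
  by_contra hcon
  push Not at hcon
  obtain ⟨a, p, q, ha, hp, hq, hinj, hcube⟩ := hc x hx A hA hcon
  obtain ⟨S, hS⟩ := hr κ C hinf t (lg (a * ∏ i, p i : ℕ)) (fun i => lg (q i) - lg (p i))
    (hlg.indep r p q (fun i => (hp i).1) (fun i => (hq i).1) hinj)
  apply hbad _ (hcube S)
  have h1 := hlg.cube a p q ha (fun i => (hp i).1.pos) (fun i => (hq i).1.pos) S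
  rw [h1]
  exact hS

end Pool.Agent.L5helper73.LA
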