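import Mathlib
import Pool.Agent.L5helper73.LA.B

/-!
# Polynomials with few monomials in each initial set of variables
-/

set_option autoImplicit false

namespace Pool.Agent.L5helper73.LA

open Finset Pool.Agent.R351

section Gen

variable {κ C : Type} [Field κ] [Field C] [Algebra κ C]

/-- A sum of `n` terms is computed with `n` additions. -/
theorem sum_cmp {g : ℕ} (t : Fin g → C) (n : ℕ) (q : Fin n → κ) (e : Fin n → Option (Fin g) → ℕ) :
    ∃ F : ℕ → Polynomial C, Cmp κ (bt1 t) n F ∧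
      ∀ l (hl : l < n), F l = ∑ r : Fin (l + 1), q ⟨r, lt_of_lt_of_le r.2 hl⟩ • ∏ j, bt1 t j ^ e ⟨r, lt_of_lt_of_le r.2 hl⟩ j := by
  classical
  let term : ℕ → Polynomial C := fun r => if h : r < n then q ⟨r, h⟩ • ∏ j, bt1 t j ^ e ⟨r, h⟩ j else 0
  refine ⟨fun l => ∑ r ∈ range (l + 1), term r, ⟨fun l b => if b then (if l = 0 then 0 else 1) else
    (if h : l < n then q ⟨l, h⟩ else 0), fun l b j => if b then 0 else (if h : l < n then e ⟨l, h⟩ j else 0),
    fun l b l' => if b then (if l' + 1 = l then 1 else 0) else 0, fun l hl => ?_⟩, fun l hl => ?_⟩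
  · show ∑ r ∈ range (l + 1), term r = _
    rw [Fintype.sum_bool]
    simp only [if_true, Bool.false_eq_true, if_false, pow_zero, Finset.prod_const_one, mul_one, one_mul]
    rw [Finset.sum_range_succ]
    congr 1
    · rcases l with _ | l
      · simp
      · rw [if_neg (Nat.succ_ne_zero l), one_smul, Finset.prod_eq_single l]
        · simp
        · intro l' _ hl'
          rw [if_neg (fun h => hl' (Nat.succ_injective h)), pow_zero]
        · intro h
          exact absurd (Finset.mem_range.2 (Nat.lt_succ_self l)) h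
    · show (if h : l < n then q ⟨l, h⟩ • ∏ j, bt1 t j ^ e ⟨l, h⟩ j else 0) = _
      rw [dif_pos hl, dif_pos hl]
      congr 1
      refine Finset.prod_congr rfl fun j _ => ?_
      rw [dif_pos hl]
  · show ∑ r ∈ range (l + 1), term r = _
    rw [Finset.sum_range]
    refine Finset.sum_congr rfl fun r _ => ?_
    exact dif_pos (lt_of_lt_of_le r.2 hl)

/-- Good numbers are not zeros of sums of few terms. -/
theorem good_sum {g L : ℕ} {t : Fin g → C} {x : C} (h : Good1 κ t L x) {ι : Type} [Fintype ι]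
    (hι : Fintype.card ι ≤ L) (q : ι → κ) (e : ι → Option (Fin g) → ℕ)
    (h0 : (∑ r, q r • ∏ j, bt1 t j ^ e r j : Polynomial C).eval x = 0) :
    (∑ r, q r • ∏ j, bt1 t j ^ e r j : Polynomial C) = 0 := by
  classical
  rcases isEmpty_or_nonempty ι with hi | hi
  · simp
  let ε := Fintype.equivFin ι
  obtain ⟨F, hF, hF'⟩ := sum_cmp (κ := κ) t (Fintype.card ι) (fun r => q (ε.symm r)) (fun r => e (ε.symm r))
  have hpos : 0 < Fintype.card ι := Fintype.card_pos
  have h1 : F (Fintype.card ι - 1) = ∑ r, q r • ∏ j, bt1 t j ^ e r j := by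
    rw [hF' _ (by omega)]
    have h2 : Fintype.card ι - 1 + 1 = Fintype.card ι := by omega
    rw [← (Equiv.sum_comp ((finCongr h2).trans ε.symm) fun r => q r • ∏ j, bt1 t j ^ e r j)]
    rfl
  obtain ⟨F', hF1, hF2⟩ := Cmp.extend hF hι
  have h3 : F' (Fintype.card ι - 1) = ∑ r, q r • ∏ j, bt1 t j ^ e r j := by
    rw [hF2 _ (by omega), h1]
  rw [← h3]
  exact h F' hF1 _ (by omega) (by rw [h3]; exact h0)

/-- at most `ψ j` different monomials in the variables `X i`, `i ≤ j`, occur in `Q`, for every `j` -/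
def Stair {C : Type} [Field C] (ψ : ℕ → ℕ) {J : Set ℕ} (Q : MvPolynomial J C) : Prop :=
  ∀ j ∈ J, ((fun s : J →₀ ℕ => s.filter fun i : J => (i : ℕ) ≤ j) '' (Q.support : Set (J →₀ ℕ))).ncard ≤ ψ j

/-- **One variable.** -/
theorem stair_step (c : ℕ → C) (ψ Ψ : ℕ → ℕ) (y : ℕ → C) {J : Set ℕ} {n : ℕ} (hn : n ∈ J) {N : ℕ}
    (hN : N ≤ Lam Ψ n) (hΨ : N * ψ n ≤ Lam Ψ n) (hy : Good1 κ (Tc c Ψ n y) (Lam Ψ n) (y n))
    {Q : MvPolynomial J C} (hQ : Stair ψ Q) (hW : ∀ s, Q.coeff s ∈ Submodule.span κ (Set.range fun i : Fin N => c i))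
    (a : J → κ) (v : J → Polynomial C)
    (hv1 : ∀ i : J, (i : ℕ) < n → v i = Polynomial.C (y i)) (hv2 : v ⟨n, hn⟩ = Polynomial.X)
    (hv3 : ∀ i : J, n < (i : ℕ) → v i = Polynomial.C (algebraMap κ C (a i)))
    (h0 : (MvPolynomial.eval₂ Polynomial.C v Q).eval (y n) = 0) : MvPolynomial.eval₂ Polynomial.C v Q = 0 := by
  classical
  let fl : (J →₀ ℕ) → (J →₀ ℕ) := fun s => s.filter fun i : J => (i : ℕ) ≤ n
  let M : Finset (J →₀ ℕ) := Q.support.image fl
  have hM : M.card ≤ ψ n := by
    have h1 := hQ n hn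
    have h2 : ((fun s : J →₀ ℕ => s.filter fun i : J => (i : ℕ) ≤ n) '' (Q.support : Set (J →₀ ℕ))) = ↑M := by
      simp only [M, Finset.coe_image]
      rfl
    rwa [h2, Set.ncard_coe_finset] at h1
  -- the coefficients
  let A : (J →₀ ℕ) → κ := fun s => (s.filter fun i : J => ¬ (i : ℕ) ≤ n).prod fun i e => a i ^ e
  have hsp : ∀ s : J →₀ ℕ, ∏ i ∈ s.support, v i ^ s i =
      ((fl s).prod fun i e => v i ^ e) * Polynomial.C (algebraMap κ C (A s)) := by
    intro s
    have h1 : ∏ i ∈ s.support, v i ^ s i = s.prod fun i e => v i ^ e := rfl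
    rw [h1, ← Finsupp.prod_filter_mul_prod_filter_not (fun i : J => (i : ℕ) ≤ n) s]
    congr 1
    simp only [A, Finsupp.prod, map_prod, map_pow]
    refine Finset.prod_congr rfl fun i hi => ?_
    have h2 : ¬ (i : ℕ) ≤ n := by
      rw [Finsupp.support_filter, Finset.mem_filter] at hi
      exact hi.2
    rw [hv3 i (by omega)]
  let w : (J →₀ ℕ) → C := fun m => ∑ s ∈ Q.support with fl s = m, A s • Q.coeff s
  have hw : ∀ m, w m ∈ Submodule.span κ (Set.range fun i : Fin N => c i) := fun m =>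
    Submodule.sum_mem _ fun s _ => Submodule.smul_mem _ _ (hW s)
  have hq : ∀ m, ∃ q : Fin N → κ, ∑ o, q o • c o = w m := fun m =>
    (Submodule.mem_span_range_iff_exists_fun κ).1 (hw m)
  choose q hq using hq
  have hP : MvPolynomial.eval₂ Polynomial.C v Q = ∑ m ∈ M, Polynomial.C (w m) * m.prod fun i e => v i ^ e := by
    rw [MvPolynomial.eval₂_eq, ← Finset.sum_fiberwise_of_maps_to (t := M) (g := fl)
      (fun s hs => Finset.mem_image_of_mem _ hs)]
    refine Finset.sum_congr rfl fun m _ => ?_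
    simp only [w, map_sum, Finset.sum_mul]
    refine Finset.sum_congr rfl fun s hs => ?_
    rw [hsp s, (Finset.mem_filter.1 hs).2, Algebra.smul_def, map_mul]
    ring
  -- the exponents
  let e : M × Fin N → Option (Fin (Lam Ψ n + n)) → ℕ := fun r j =>
    j.elim (r.1.1 ⟨n, hn⟩) (Fin.addCases (fun o' : Fin (Lam Ψ n) => if (o' : ℕ) = r.2 then 1 else 0)
      (fun i : Fin n => if h : (i : ℕ) ∈ J then r.1.1 ⟨i, h⟩ else 0))
  have he : ∀ r : M × Fin N, ∏ j, bt1 (Tc c Ψ n y) j ^ e r j = Polynomial.C (c r.2) * r.1.1.prod fun i e => v i ^ e := by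
    rintro ⟨⟨m, hm⟩, o⟩
    rw [Fintype.prod_option, Fin.prod_univ_add]
    simp only [e, bt1, Option.elim_none, Option.elim_some, Fin.addCases_left, Fin.addCases_right, Tc,
      Fin.append_left, Fin.append_right]
    have h1 : ∏ x : Fin (Lam Ψ n), (Polynomial.C (c x)) ^ (if (x : ℕ) = o then 1 else 0) = Polynomial.C (c o) := by
      rw [Finset.prod_eq_single (⟨o, lt_of_lt_of_le o.2 hN⟩ : Fin (Lam Ψ n))]
      · simp
      · intro x _ hx
        rw [if_neg (fun h => hx (Fin.ext h)), pow_zero]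
      · intro h
        exact absurd (Finset.mem_univ _) h
    rw [h1]
    -- the monomial
    obtain ⟨s, -, rfl⟩ := Finset.mem_image.1 hm
    have h2 : (fl s).support ⊆ (range (n + 1)).subtype fun i => i ∈ J := by
      intro i hi
      rw [Finset.mem_subtype, Finset.mem_range]
      rw [show (fl s).support = _ from Finsupp.support_filter _ _, Finset.mem_filter] at hi
      have := hi.2
      omega
    have h3 : ((fl s).prod fun i e => v i ^ e) =
        ∏ i ∈ range (n + 1), if h : i ∈ J then v ⟨i, h⟩ ^ fl s ⟨i, h⟩ else 1 := by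
      rw [Finsupp.prod_of_support_subset _ h2 _ (fun i _ => pow_zero _)]
      have h4 := Finset.prod_subtype_eq_prod_filter (s := range (n + 1)) (p := fun i => i ∈ J)
        (fun i => if h : i ∈ J then v ⟨i, h⟩ ^ fl s ⟨i, h⟩ else 1)
      have h5 : ∏ x ∈ (range (n + 1)).subtype (fun i => i ∈ J), v x ^ fl s x =
          ∏ x ∈ (range (n + 1)).subtype (fun i => i ∈ J),
            if h : (x : ℕ) ∈ J then v ⟨x, h⟩ ^ fl s ⟨x, h⟩ else 1 :=
        Finset.prod_congr rfl fun x _ => by rw [dif_pos x.2]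
      rw [h5, h4]
      exact Finset.prod_filter_of_ne fun i _ hne => by
        by_contra hh
        rw [dif_neg hh] at hne
        exact hne rfl
    rw [h3, Finset.prod_range_succ, dif_pos hn, hv2, Finset.prod_range]
    have h6 : ∏ i : Fin n, Polynomial.C (y i) ^ (if h : (i : ℕ) ∈ J then fl s ⟨i, h⟩ else 0) =
        ∏ i : Fin n, if h : (i : ℕ) ∈ J then v ⟨i, h⟩ ^ fl s ⟨i, h⟩ else 1 := by
      refine Finset.prod_congr rfl fun i _ => ?_
      by_cases h : (i : ℕ) ∈ J
      · rw [dif_pos h, dif_pos h, hv1 ⟨i, h⟩ i.2]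
      · rw [dif_neg h, dif_neg h, pow_zero]
    rw [h6]
    ring
  have hP2 : MvPolynomial.eval₂ Polynomial.C v Q =
      ∑ r : M × Fin N, q r.1 r.2 • ∏ j, bt1 (Tc c Ψ n y) j ^ e r j := by
    rw [hP, Fintype.sum_prod_type, ← Finset.sum_coe_sort M]
    refine Finset.sum_congr rfl fun m _ => ?_
    rw [← hq m, map_sum, Finset.sum_mul]
    refine Finset.sum_congr rfl fun o _ => ?_
    rw [he (m, o), Algebra.smul_def, map_mul, Algebra.smul_def,
      IsScalarTower.algebraMap_apply κ C (Polynomial C), Polynomial.algebraMap_eq, mul_assoc]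
  rw [hP2]
  refine good_sum hy ?_ _ _ (by rw [← hP2]; exact h0)
  rw [Fintype.card_prod, Fintype.card_coe, Fintype.card_fin, mul_comm]
  exact (Nat.mul_le_mul_left _ hM).trans hΨ

/-- **Polynomials with few monomials.** -/
theorem stair [Infinite κ] (c : ℕ → C) (τ : C) (ψ Ψ : ℕ → ℕ) (y : ℕ → C) {J : Set ℕ}
    (hJ : ∀ j ∈ J, y j ∉ Bad κ c τ Ψ j y) {N : ℕ} (hN : ∀ j ∈ J, N ≤ Lam Ψ j) (hΨ : ∀ j ∈ J, N * ψ j ≤ Lam Ψ j)
    {Q : MvPolynomial J C} (hQ : Stair ψ Q) (hW : ∀ s, Q.coeff s ∈ Submodule.span κ (Set.range fun i : Fin N => c i))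
    (h0 : Q ≠ 0) : MvPolynomial.eval (fun j : J => y j) Q ≠ 0 := by
  classical
  intro hz
  apply h0
  -- the claims
  have key : ∀ n : ℕ, (∀ a : J → κ, MvPolynomial.eval (fun i : J => if (i : ℕ) < n then y i else algebraMap κ C (a i)) Q
      = 0) → ∀ a : J → κ, MvPolynomial.eval (fun i : J => algebraMap κ C (a i)) Q = 0 := by
    intro n
    induction n with
    | zero =>
      intro h a
      have := h a
      simpa using this
    | succ n ih =>
      intro h
      refine ih fun a => ?_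
      by_cases hn : n ∈ J
      · let v : J → Polynomial C := fun i => if (i : ℕ) < n then Polynomial.C (y i) else
          if (i : ℕ) = n then Polynomial.X else Polynomial.C (algebraMap κ C (a i))
        have hev : ∀ x : C, (MvPolynomial.eval₂ Polynomial.C v Q).eval x =
            MvPolynomial.eval (fun i : J => if (i : ℕ) < n then y i else if (i : ℕ) = n then x else
              algebraMap κ C (a i)) Q := by
          intro x
          rw [← Polynomial.coe_evalRingHom, MvPolynomial.hom_eval₂]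
          unfold MvPolynomial.eval
          rw [MvPolynomial.coe_eval₂Hom]
          congr 1
          · ext z
            simp
          · funext i
            simp only [v]
            split_ifs <;> simp
        have h1 : MvPolynomial.eval₂ Polynomial.C v Q = 0 := by
          have hg : Good1 κ (Tc c Ψ n y) (Lam Ψ n) (y n) := by
            by_contra hcon
            refine hJ n hn ⟨0, fun hS => hcon ?_⟩
            rw [Int.cast_zero, zero_mul, add_zero] at hS
            exact hS _ _ fun o => ⟨o, rfl⟩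
          refine stair_step c ψ Ψ y hn (hN n hn) (hΨ n hn) hg hQ hW a v (fun i hi => if_pos hi) ?_ ?_ ?_
          · show (if n < n then Polynomial.C (y n) else
              if n = n then Polynomial.X else Polynomial.C (algebraMap κ C (a ⟨n, hn⟩))) = Polynomial.X
            rw [if_neg (lt_irrefl n), if_pos rfl]
          · intro i hi
            simp only [v]
            rw [if_neg (by omega), if_neg (by omega)]
          · rw [hev, ← h a]
            congr 2
            funext i
            by_cases h1 : (i : ℕ) < n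
            · rw [if_pos h1, if_pos (by omega)]
            · rw [if_neg h1]
              by_cases h2 : (i : ℕ) = n
              · rw [if_pos h2, if_pos (by omega), h2]
              · rw [if_neg h2, if_neg (by omega)]
        have h2 := hev (algebraMap κ C (a ⟨n, hn⟩))
        rw [h1, Polynomial.eval_zero] at h2
        rw [h2]
        congr 2
        funext i
        by_cases h1 : (i : ℕ) < n
        · rw [if_pos h1, if_pos h1]
        · rw [if_neg h1, if_neg h1]
          by_cases h2 : (i : ℕ) = n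
          · rw [if_pos h2]
            have h5 : i = ⟨n, hn⟩ := Subtype.ext h2
            rw [h5]
          · rw [if_neg h2]
      · rw [← h a]
        congr 2
        funext i
        have hin : (i : ℕ) ≠ n := fun hh => hn (hh ▸ i.2)
        by_cases h1 : (i : ℕ) < n
        · rw [if_pos h1, if_pos (by omega)]
        · rw [if_neg h1, if_neg (by omega)]
  -- all variables are small
  obtain ⟨n, hn⟩ : ∃ n : ℕ, ∀ i ∈ Q.vars, (i : ℕ) < n := by
    refine ⟨(Q.vars.sup fun i => (i : ℕ)) + 1, fun i hi => ?_⟩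
    exact Nat.lt_succ_of_le (Finset.le_sup (f := fun i : J => (i : ℕ)) hi)
  have h1 := key n (fun a => by
    rw [← hz]
    exact MvPolynomial.eval₂Hom_congr' rfl (fun i hi _ => if_pos (hn i hi)) rfl)
  refine MvPolynomial.funext_set (fun _ : J => Set.range (algebraMap κ C))
    (fun i => Set.infinite_range_of_injective (algebraMap κ C).injective) fun x hx => ?_
  have h3 : ∀ i, ∃ a : κ, algebraMap κ C a = x i := fun i => hx i (Set.mem_univ _)
  choose a ha using h3
  rw [map_zero, ← h1 a]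
  congr 2
  funext i
  exact (ha i).symm

/-- Freeness, with free choice of the numbers of additions and constants. -/
theorem free_of_notMem' [Infinite κ] (c : ℕ → C) (τ : C) (Ψ : ℕ → ℕ) (y : ℕ → C) (J : Set ℕ)
    (hJ : ∀ j ∈ J, y j ∉ Bad κ c τ Ψ j y) (k : ℕ) (hk : ∀ j ∈ J, k ≤ j) (g L : ℕ) (hg : g ≤ Lam Ψ k)
    (hL : L ≤ Lam Ψ k)
    (G : ℕ → MvPolynomial J C) (hG : Comp κ (known c y g k) L G) (l : ℕ) (hl : l < L) (h0 : G l ≠ 0) :
    MvPolynomial.eval (fun j : J => y j) (G l) ≠ 0 := by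
  refine free y (fun j => Set.range (Tc c Ψ j y)) ?_ ?_ (Lam Ψ) (J := J) ?_ hk
    (fun j hj => hL.trans (Lam_mono Ψ (hk j hj))) (known c y g k) ?_ G hG l hl h0
  · rintro i j hij _ ⟨o, rfl⟩
    refine Fin.addCases (fun o => ?_) (fun o => ?_) o
    · refine ⟨Fin.castAdd j ⟨o, lt_of_lt_of_le o.2 (Lam_mono Ψ hij)⟩, ?_⟩
      unfold Tc
      rw [Fin.append_left, Fin.append_left]
    · refine ⟨Fin.natAdd (Lam Ψ j) ⟨o, lt_of_lt_of_le o.2 hij⟩, ?_⟩
      unfold Tc
      rw [Fin.append_right, Fin.append_right]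
  · intro i j hij
    refine ⟨Fin.natAdd (Lam Ψ j) ⟨i, hij⟩, ?_⟩
    unfold Tc
    rw [Fin.append_right]
  · intro j hj
    by_contra hcon
    exact hJ j hj ⟨0, by rwa [Int.cast_zero, zero_mul, add_zero]⟩
  · rintro (o | o)
    · refine ⟨Fin.castAdd k ⟨o, lt_of_lt_of_le o.2 hg⟩, ?_⟩
      unfold Tc
      rw [Fin.append_left]
      rfl
    · refine ⟨Fin.natAdd (Lam Ψ k) ⟨o, o.2⟩, ?_⟩
      unfold Tc
      rw [Fin.append_right]
      rfl

end Gen

/-- the function `Ψ` for both kinds of relations -/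
def Psi (ψ : ℕ → ℕ) (j : ℕ) : ℕ := Lam ψ j * Lam ψ j + ψ j

theorem le_Psi (ψ : ℕ → ℕ) (j : ℕ) : ψ j ≤ Lam (Psi ψ) j :=
  (Nat.le_add_left _ _).trans (le_Lam (Psi ψ) le_rfl)

theorem mul_le_Psi (ψ : ℕ → ℕ) {k j : ℕ} (h : k ≤ j) : ψ k * ψ j ≤ Lam (Psi ψ) j :=
  ((Nat.mul_le_mul (le_Lam ψ h) (le_Lam ψ le_rfl)).trans (Nat.le_add_right _ _)).trans (le_Lam (Psi ψ) le_rfl)

theorem le_Psi' (ψ : ℕ → ℕ) {k j : ℕ} (h : k ≤ j) : ψ k ≤ Lam (Psi ψ) j :=
  (le_Psi ψ k).trans (Lam_mono _ h)

end Pool.Agent.L5helper73.LA
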